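import Pool.Agent.H37.MHD.Defs

/-! # MP_59296a_an, module M3: stability of back-to-labels paths -/

set_option autoImplicit false

open MeasureTheory Set Filter Topology
open scoped ContDiff
open H36.MHD

noncomputable section

namespace H37.MHD

variable {B : Bg}

/-- integrand of a back path -/
lemma backInt_continuousOn (U : X → V3) (hU : Continuous U) (t : ℝ) (β : ℝ → V3)
    (hβ : ContinuousOn β (Icc 0 1)) :
    ContinuousOn (fun q => t • U (t * (1 - q), β q)) (Icc 0 1) := by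
  have h : ContinuousOn (fun q : ℝ => U (t * (1 - q), β q)) (Icc 0 1) :=
    hU.comp_continuousOn (ContinuousOn.prodMk (by fun_prop) hβ)
  exact h.const_smul t

lemma backInt_integrable (U : X → V3) (hU : Continuous U) (t : ℝ) (β : ℝ → V3)
    (hβ : ContinuousOn β (Icc 0 1)) (r : ℝ) (hr : r ∈ Icc (0:ℝ) 1) :
    IntervalIntegrable (fun q => t • U (t * (1 - q), β q)) volume 0 r := by
  apply ContinuousOn.intervalIntegrable
  apply (backInt_continuousOn U hU t β hβ).mono
  rw [uIcc_of_le hr.1]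
  exact Icc_subset_Icc le_rfl hr.2

theorem path_stab (T K δ : ℝ) (_hT : 0 < T) (hK : 0 ≤ K) (hTK : K * (40 * T) ≤ 1) (hδ : 0 ≤ δ)
    (U U' : X → V3) (hUc : Continuous U) (hUc' : Continuous U')
    (t : ℝ) (ht : |t| ≤ 2 * T)
    (hL : ∀ s, |s| ≤ |t| → ∀ x y, ‖U (s, x) - U (s, y)‖ ≤ K * ‖x - y‖)
    (hd : ∀ s, |s| ≤ |t| → ∀ x, ‖U (s, x) - U' (s, x)‖ ≤ δ)
    (x x' y y' : V3) (h : BackPath U t x y) (h' : BackPath U' t x' y') :
    ‖(y - y') - (x - x')‖ ≤ 1 / 19 * ‖x - x'‖ + 20 / 19 * |t| * δ := by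
  obtain ⟨β, hβ, hβ1, hβe⟩ := h
  obtain ⟨β', hβ', hβ1', hβe'⟩ := h'
  have hKt : K * |t| ≤ 1 / 20 := by
    have : K * |t| ≤ K * (2 * T) := mul_le_mul_of_nonneg_left ht hK
    linarith
  have hD : ContinuousOn (fun q => ‖β q - β' q‖) (Icc 0 1) := (hβ.sub hβ').norm
  obtain ⟨q0, hq0, hmax⟩ := isCompact_Icc.exists_isMaxOn (nonempty_Icc.mpr zero_le_one) hD
  set M := ‖β q0 - β' q0‖ with hM
  have hM0 : 0 ≤ M := norm_nonneg _
  have hle : ∀ q ∈ Icc (0:ℝ) 1, ‖β q - β' q‖ ≤ M := fun q hq => hmax hq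
  have key : ∀ r ∈ Icc (0:ℝ) 1, ‖(β r - β' r) - (x - x')‖ ≤ |t| * (K * M + δ) := by
    intro r hr
    have e : (β r - β' r) - (x - x') =
        ∫ q in (0:ℝ)..r, (t • U' (t * (1 - q), β' q) - t • U (t * (1 - q), β q)) := by
      rw [intervalIntegral.integral_sub (backInt_integrable U' hUc' t β' hβ' r hr)
        (backInt_integrable U hUc t β hβ r hr), hβe r hr, hβe' r hr]
      abel
    rw [e]
    have hb : ∀ q ∈ Set.uIoc 0 r, ‖t • U' (t * (1 - q), β' q) - t • U (t * (1 - q), β q)‖ ≤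
        |t| * (K * M + δ) := by
      intro q hq
      rw [uIoc_of_le hr.1] at hq
      have hq' : q ∈ Icc (0:ℝ) 1 := ⟨hq.1.le, hq.2.trans hr.2⟩
      have hs : |t * (1 - q)| ≤ |t| := by
        rw [abs_mul]
        have : |1 - q| ≤ 1 := by rw [abs_le]; constructor <;> linarith [hq'.1, hq'.2]
        exact mul_le_of_le_one_right (abs_nonneg _) this
      rw [← smul_sub, norm_smul, Real.norm_eq_abs]
      apply mul_le_mul_of_nonneg_left _ (abs_nonneg _)
      have h1 := hL _ hs (β q) (β' q)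
      have h2 := hd _ hs (β' q)
      have h3 : K * ‖β q - β' q‖ ≤ K * M := mul_le_mul_of_nonneg_left (hle q hq') hK
      have e2 : U' (t * (1 - q), β' q) - U (t * (1 - q), β q) =
          -((U (t * (1 - q), β q) - U (t * (1 - q), β' q)) +
            (U (t * (1 - q), β' q) - U' (t * (1 - q), β' q))) := by abel
      rw [e2, norm_neg]
      refine (norm_add_le _ _).trans ?_
      linarith
    have h4 := intervalIntegral.norm_integral_le_of_norm_le_const hb
    refine h4.trans ?_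
    have : |r - 0| ≤ 1 := by rw [sub_zero, abs_of_nonneg hr.1]; exact hr.2
    have h0 : 0 ≤ |t| * (K * M + δ) := by positivity
    exact mul_le_of_le_one_right h0 this
  have hMle : M ≤ ‖x - x'‖ + |t| * (K * M + δ) := by
    have h1 := key q0 hq0
    have h2 : β q0 - β' q0 = (x - x') + ((β q0 - β' q0) - (x - x')) := by abel
    rw [hM]
    calc ‖β q0 - β' q0‖ = ‖(x - x') + ((β q0 - β' q0) - (x - x'))‖ := by rw [← h2]
      _ ≤ ‖x - x'‖ + ‖(β q0 - β' q0) - (x - x')‖ := norm_add_le _ _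
      _ ≤ _ := by linarith
  have hfin := key 1 ⟨zero_le_one, le_rfl⟩
  rw [hβ1, hβ1'] at hfin
  have h5 : |t| * (K * M + δ) ≤ 1 / 20 * M + |t| * δ := by
    have : (K * |t|) * M ≤ 1 / 20 * M := mul_le_mul_of_nonneg_right hKt hM0
    nlinarith
  have h6 : M ≤ 20 / 19 * (‖x - x'‖ + |t| * δ) := by linarith
  nlinarith

theorem backPath_zero (U : X → V3) (x y : V3) (h : BackPath U 0 x y) : y = x := by
  obtain ⟨β, _, hβ1, hβe⟩ := h
  have := hβe 1 ⟨zero_le_one, le_rfl⟩
  simp only [zero_smul, intervalIntegral.integral_zero, sub_zero] at this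
  rw [← hβ1, this]

lemma vec_continuous (U : Fin 3 → X → ℝ) (hU : ∀ k, Continuous (U k)) : Continuous (vec U) := by
  unfold vec
  fun_prop

lemma Stage.u_cont (st : Stage B) (i : Fin 2) : Continuous (vec (st.u i)) :=
  vec_continuous _ (fun k => (st.u_smooth i k).continuous)

lemma abs_sg (i : Fin 2) : |sg i| = 1 := by
  unfold sg; split_ifs <;> simp

lemma th_nonneg (t : ℝ) : 0 ≤ th t := by unfold th; positivity

lemma th_le {s t : ℝ} (h : |s| ≤ |t|) : th s ≤ th t := by
  unfold th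
  have : s ^ 4 ≤ t ^ 4 := by
    have h2 := pow_le_pow_left₀ (abs_nonneg s) h 4
    have e1 : |s| ^ 4 = s ^ 4 := by rw [← abs_pow, abs_of_nonneg (by positivity)]
    have e2 : |t| ^ 4 = t ^ 4 := by rw [← abs_pow, abs_of_nonneg (by positivity)]
    rwa [e1, e2] at h2
  linarith

lemma aa_le {s t : ℝ} (h : |s| ≤ |t|) : |t| * |aa s| ≤ 4 * th t := by
  unfold th aa
  have h2 := pow_le_pow_left₀ (abs_nonneg s) h 3
  rw [abs_pow]
  have e2 : |t| ^ 4 = t ^ 4 := by rw [← abs_pow, abs_of_nonneg (by positivity)]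
  have : |t| * |s| ^ 3 ≤ |t| * |t| ^ 3 := mul_le_mul_of_nonneg_left h2 (abs_nonneg _)
  nlinarith

lemma th_small (t : ℝ) (ht : |t| ≤ 3 / 2 * B.T) : B.kap * th t ≤ 1 / 300 := by
  unfold th
  have h1 := pow_le_pow_left₀ (abs_nonneg t) ht 4
  have e2 : |t| ^ 4 = t ^ 4 := by rw [← abs_pow, abs_of_nonneg (by positivity)]
  rw [e2] at h1
  have h2 : B.kap * (t ^ 4) ≤ B.kap * ((3 / 2 * B.T) ^ 4) := mul_le_mul_of_nonneg_left h1 B.hkap
  have h3 := B.hkT
  nlinarith

/-- displacement -/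
theorem Stage.displ (st : Stage B) (i : Fin 2) (t : ℝ) (x : V3) (ht : |t| ≤ 3 / 2 * B.T) :
    ‖vec (st.Y i) (t, x) - x + (sg i * th t) • wv B x‖ ≤ 1 / 2 * th t * ‖wv B x‖ := by
  have hT := B.hT
  obtain ⟨β, hβ, hβ1, hβe⟩ := st.path i t x ht
  obtain ⟨c, hc0, hc1, hc⟩ := st.close
  set W := ‖wv B x‖ with hW
  have hW0 : 0 ≤ W := norm_nonneg _
  have hkap := B.hkap
  have hth0 := th_nonneg t
  have hks := th_small (B := B) t ht
  have hct : |t| * c ≤ 3 / 8 := by
    have h1 : c ≤ 1 / (4 * B.T) := hc1.le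
    have h2 : |t| * c ≤ (3 / 2 * B.T) * (1 / (4 * B.T)) := mul_le_mul ht h1 hc0 (by positivity)
    have h3 : (3 / 2 * B.T) * (1 / (4 * B.T)) = 3 / 8 := by field_simp; norm_num
    linarith
  -- maximum of the distance to `x`
  have hDc : ContinuousOn (fun q => ‖β q - x‖) (Icc 0 1) := (hβ.sub continuousOn_const).norm
  obtain ⟨q0, hq0, hmax⟩ := isCompact_Icc.exists_isMaxOn (nonempty_Icc.mpr zero_le_one) hDc
  set M := ‖β q0 - x‖ with hM
  have hM0 : 0 ≤ M := norm_nonneg _
  have hle : ∀ q ∈ Icc (0:ℝ) 1, ‖β q - x‖ ≤ M := fun q hq => hmax hq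
  have hwlip : ∀ q ∈ Icc (0:ℝ) 1, ‖wv B (β q) - wv B x‖ ≤ B.kap * M := fun q hq =>
    (B.w_lip (β q) x).trans (mul_le_mul_of_nonneg_left (hle q hq) hkap)
  have hwle : ∀ q ∈ Icc (0:ℝ) 1, ‖wv B (β q)‖ ≤ W + B.kap * M := by
    intro q hq
    have h1 := hwlip q hq
    have h2 : wv B (β q) = wv B x + (wv B (β q) - wv B x) := by abel
    rw [h2]
    exact (norm_add_le _ _).trans (by linarith)
  have habs : ∀ q ∈ Icc (0:ℝ) 1, |t * (1 - q)| ≤ |t| := by
    intro q hq
    rw [abs_mul]
    have : |1 - q| ≤ 1 := by rw [abs_le]; constructor <;> linarith [hq.1, hq.2]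
    exact mul_le_of_le_one_right (abs_nonneg _) this
  have hclose : ∀ q ∈ Icc (0:ℝ) 1,
      ‖t • (vec (st.u i) (t * (1 - q), β q) - (sg i * aa (t * (1 - q))) • wv B (β q))‖ ≤
        3 / 8 * th t * (W + B.kap * M) := by
    intro q hq
    have h1 := hc i (t * (1 - q), β q) (by
      have := habs q hq
      simp only
      linarith)
    simp only at h1
    rw [norm_smul, Real.norm_eq_abs]
    have h2 := th_le (habs q hq)
    have h3 := hwle q hq
    have h4 : c * th (t * (1 - q)) * ‖wv B (β q)‖ ≤ c * th t * (W + B.kap * M) := by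
      have := th_nonneg (t * (1 - q))
      gcongr
    calc |t| * _ ≤ |t| * (c * th t * (W + B.kap * M)) :=
          mul_le_mul_of_nonneg_left (h1.trans h4) (abs_nonneg _)
      _ = (|t| * c) * (th t * (W + B.kap * M)) := by ring
      _ ≤ 3 / 8 * (th t * (W + B.kap * M)) :=
          mul_le_mul_of_nonneg_right hct (by positivity)
      _ = _ := by ring
  have hmain : ∀ q ∈ Icc (0:ℝ) 1, ‖t • ((sg i * aa (t * (1 - q))) • wv B (β q))‖ ≤
      4 * th t * (W + B.kap * M) := by
    intro q hq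
    rw [norm_smul, norm_smul, Real.norm_eq_abs, Real.norm_eq_abs, abs_mul, abs_sg, one_mul,
      ← mul_assoc]
    exact mul_le_mul (aa_le (habs q hq)) (hwle q hq) (norm_nonneg _) (by positivity)
  have hfull : ∀ q ∈ Icc (0:ℝ) 1, ‖t • vec (st.u i) (t * (1 - q), β q)‖ ≤
      35 / 8 * th t * (W + B.kap * M) := by
    intro q hq
    have e : t • vec (st.u i) (t * (1 - q), β q) =
        t • (vec (st.u i) (t * (1 - q), β q) - (sg i * aa (t * (1 - q))) • wv B (β q)) +
          t • ((sg i * aa (t * (1 - q))) • wv B (β q)) := by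
      rw [← smul_add]; congr 1; abel
    rw [e]
    refine (norm_add_le _ _).trans ?_
    have h1 := hclose q hq
    have h2 := hmain q hq
    linarith
  have hMle : M ≤ 35 / 8 * th t * (W + B.kap * M) := by
    have e : β q0 - x = - ∫ q in (0:ℝ)..q0, t • vec (st.u i) (t * (1 - q), β q) := by
      rw [hβe q0 hq0]; abel
    have hMe : M = ‖∫ q in (0:ℝ)..q0, t • vec (st.u i) (t * (1 - q), β q)‖ := by
      calc M = ‖β q0 - x‖ := hM
        _ = _ := by rw [e, norm_neg]
    have hb : ∀ q ∈ Set.uIoc 0 q0, ‖t • vec (st.u i) (t * (1 - q), β q)‖ ≤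
        35 / 8 * th t * (W + B.kap * M) := by
      intro q hq
      rw [uIoc_of_le hq0.1] at hq
      exact hfull q ⟨hq.1.le, hq.2.trans hq0.2⟩
    refine hMe.le.trans ((intervalIntegral.norm_integral_le_of_norm_le_const hb).trans ?_)
    have : |q0 - 0| ≤ 1 := by rw [sub_zero, abs_of_nonneg hq0.1]; exact hq0.2
    have h0 : 0 ≤ 35 / 8 * th t * (W + B.kap * M) := by positivity
    exact mul_le_of_le_one_right h0 this
  have hM2 : M ≤ 9 / 2 * th t * W := by
    have h1 : th t * (B.kap * M) ≤ 1 / 300 * M := by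
      have : (B.kap * th t) * M ≤ 1 / 300 * M := mul_le_mul_of_nonneg_right hks hM0
      nlinarith
    nlinarith [mul_nonneg hth0 hW0]
  have hkM : B.kap * M ≤ 3 / 200 * W := by
    have h1 : B.kap * M ≤ B.kap * (9 / 2 * th t * W) := mul_le_mul_of_nonneg_left hM2 hkap
    have h2 : (B.kap * th t) * W ≤ 1 / 300 * W := mul_le_mul_of_nonneg_right hks hW0
    nlinarith
  -- main identity
  have hint1 := backInt_integrable (vec (st.u i)) (st.u_cont i) t β hβ 1 ⟨zero_le_one, le_rfl⟩
  have hint2 : IntervalIntegrable (fun q : ℝ => t • ((sg i * aa (t * (1 - q))) • wv B x)) volume 0 1 := by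
    apply Continuous.intervalIntegrable
    unfold aa
    fun_prop
  have hval : ∫ q in (0:ℝ)..1, t • ((sg i * aa (t * (1 - q))) • wv B x) = (sg i * th t) • wv B x := by
    have e1 : ∀ q : ℝ, t • ((sg i * aa (t * (1 - q))) • wv B x) =
        (sg i * (t ^ 4 * (1 - q) ^ 3)) • wv B x := by
      intro q
      rw [smul_smul]
      congr 1
      unfold aa
      ring
    simp_rw [e1]
    rw [intervalIntegral.integral_smul_const]
    congr 1
    rw [intervalIntegral.integral_const_mul, intervalIntegral.integral_const_mul]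
    have e2 : ∫ q in (0:ℝ)..1, (1 - q) ^ 3 = 1 / 4 := by
      rw [intervalIntegral.integral_comp_sub_left (fun y : ℝ => y ^ 3) 1]
      simp only [sub_self, sub_zero]
      rw [integral_pow]
      norm_num
    rw [e2]
    unfold th
    ring
  have hident : vec (st.Y i) (t, x) - x + (sg i * th t) • wv B x =
      ∫ q in (0:ℝ)..1, (t • ((sg i * aa (t * (1 - q))) • wv B x) -
        t • vec (st.u i) (t * (1 - q), β q)) := by
    rw [intervalIntegral.integral_sub hint2 hint1, hval, ← hβ1, hβe 1 ⟨zero_le_one, le_rfl⟩]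
    abel
  rw [hident]
  have hb : ∀ q ∈ Set.uIoc (0:ℝ) 1, ‖t • ((sg i * aa (t * (1 - q))) • wv B x) -
        t • vec (st.u i) (t * (1 - q), β q)‖ ≤ 1 / 2 * th t * W := by
    intro q hq
    rw [uIoc_of_le zero_le_one] at hq
    have hq' : q ∈ Icc (0:ℝ) 1 := ⟨hq.1.le, hq.2⟩
    have e : t • ((sg i * aa (t * (1 - q))) • wv B x) - t • vec (st.u i) (t * (1 - q), β q) =
        -(t • (vec (st.u i) (t * (1 - q), β q) - (sg i * aa (t * (1 - q))) • wv B (β q)) +
          t • ((sg i * aa (t * (1 - q))) • (wv B (β q) - wv B x))) := by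
      simp only [smul_sub]
      abel
    rw [e, norm_neg]
    refine (norm_add_le _ _).trans ?_
    have h1 := hclose q hq'
    have h2 : ‖t • ((sg i * aa (t * (1 - q))) • (wv B (β q) - wv B x))‖ ≤
        4 * th t * (B.kap * M) := by
      rw [norm_smul, norm_smul, Real.norm_eq_abs, Real.norm_eq_abs, abs_mul, abs_sg, one_mul,
        ← mul_assoc]
      exact mul_le_mul (aa_le (habs q hq')) (hwlip q hq') (norm_nonneg _) (by positivity)
    have h3 : th t * (B.kap * M) ≤ th t * (3 / 200 * W) := mul_le_mul_of_nonneg_left hkM hth0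
    have h4 : 0 ≤ th t * W := mul_nonneg hth0 hW0
    nlinarith
  have hfin := intervalIntegral.norm_integral_le_of_norm_le_const hb
  simpa using hfin

theorem Stage.Y_ne (st : Stage B) (t : ℝ) (x : V3) (ht : |t| ≤ 3 / 2 * B.T)
    (hS : 0 < SS B (t, x)) : vec (st.Y 0) (t, x) ≠ vec (st.Y 1) (t, x) := by
  intro heq
  have h0 := st.displ 0 t x ht
  have h1 := st.displ 1 t x ht
  have hth : th t ≠ 0 := by
    intro h
    unfold SS at hS
    simp only [h] at hS
    simp at hS
  have hthpos : 0 < th t := lt_of_le_of_ne (th_nonneg t) (Ne.symm hth)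
  have hw : wv B x ≠ 0 := by
    intro h
    unfold SS at hS
    have : ∀ k, B.w k x = 0 := fun k => congrFun h k
    simp [this] at hS
  have hWpos : 0 < ‖wv B x‖ := norm_pos_iff.mpr hw
  rw [heq] at h0
  have e0 : sg 0 = 1 := by simp [sg]
  have e1 : sg 1 = -1 := by simp [sg]
  rw [e0, one_mul] at h0
  rw [e1] at h1
  have h2 : (2 * th t) • wv B x = (vec (st.Y 1) (t, x) - x + th t • wv B x) -
      (vec (st.Y 1) (t, x) - x + (-1 * th t) • wv B x) := by
    rw [add_sub_add_left_eq_sub, ← sub_smul]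
    congr 1
    ring
  have h3 : ‖(2 * th t) • wv B x‖ ≤ 1 / 2 * th t * ‖wv B x‖ + 1 / 2 * th t * ‖wv B x‖ := by
    rw [h2]
    exact (norm_sub_le _ _).trans (add_le_add h0 h1)
  rw [norm_smul, Real.norm_eq_abs, abs_of_pos (by positivity)] at h3
  have : 0 < th t * ‖wv B x‖ := mul_pos hthpos hWpos
  nlinarith

lemma wv_le (x : V3) : ‖wv B x‖ ≤ 3 * B.kap := by
  by_cases h : ∀ k, B.w k x = 0
  · have : wv B x = 0 := by ext k; exact h k
    rw [this, norm_zero]
    have := B.hkap
    positivity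
  · push Not at h
    obtain ⟨k, hk⟩ := h
    have h1 := B.w_supp k x hk
    set x' : V3 := x + fun _ => 3 with hx'
    have hn : ‖(fun _ => 3 : V3)‖ = 3 := by
      rw [pi_norm_const]; norm_num
    have h2 : wv B x' = 0 := by
      ext j
      by_contra hj
      have h3 := B.w_supp j x' hj
      have e : (fun _ => 3 : V3) = (x' - B.x0) - (x - B.x0) := by rw [hx']; abel
      have h4 : ‖(fun _ => 3 : V3)‖ ≤ ‖x' - B.x0‖ + ‖x - B.x0‖ := by
        rw [e]; exact norm_sub_le _ _
      rw [hn] at h4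
      have := B.hr1
      linarith
    have h5 := B.w_lip x x'
    have h6 : ‖x - x'‖ = 3 := by
      have : x - x' = -(fun _ => 3 : V3) := by rw [hx']; abel
      rw [this, norm_neg, hn]
    have h7 : wv B x - wv B x' = wv B x := by rw [h2, sub_zero]
    have h8 : ‖wv B x - wv B x'‖ ≤ B.kap * ‖x - x'‖ := h5
    rw [h7, h6] at h8
    linarith

theorem Stage.Y_near (st : Stage B) (i : Fin 2) (t : ℝ) (x : V3) (ht : |t| ≤ 3 / 2 * B.T) :
    ‖vec (st.Y i) (t, x) - x‖ ≤ 1 / 10 := by
  have h1 := st.displ i t x ht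
  have h2 := th_small (B := B) t ht
  have h3 := wv_le (B := B) x
  have hth0 := th_nonneg t
  have hkap := B.hkap
  have e : vec (st.Y i) (t, x) - x =
      (vec (st.Y i) (t, x) - x + (sg i * th t) • wv B x) - (sg i * th t) • wv B x := by abel
  rw [e]
  refine (norm_sub_le _ _).trans ?_
  rw [norm_smul, Real.norm_eq_abs, abs_mul, abs_sg, one_mul, abs_of_nonneg hth0]
  have h4 : th t * ‖wv B x‖ ≤ th t * (3 * B.kap) := mul_le_mul_of_nonneg_left h3 hth0
  nlinarith

/-- `DY` is close to the identity (operator norm for the sup norm). -/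
theorem Stage.DY (st : Stage B) (i : Fin 2) (z : X) (hz : |z.1| ≤ 3 / 2 * B.T) (v : V3) :
    ‖(fun j => ∑ k, dx k (st.Y i j) z * v k) - v‖ ≤ 1 / 19 * ‖v‖ := by
  obtain ⟨t, x⟩ := z
  simp only at hz
  have hT := B.hT
  obtain ⟨K, hK0, hK1, hK⟩ := st.lip
  have hTK : K * (40 * B.T) ≤ 1 := by
    unfold Kmax at hK1
    rw [lt_div_iff₀ (by positivity)] at hK1
    exact hK1.le
  have hlip : ∀ x y : V3, ‖(vec (st.Y i) (t, x) - vec (st.Y i) (t, y)) - (x - y)‖ ≤ 1 / 19 * ‖x - y‖ := by
    intro x y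
    have h := path_stab B.T K 0 hT hK0 hTK le_rfl (vec (st.u i)) (vec (st.u i)) (st.u_cont i)
      (st.u_cont i) t (by linarith) (fun s hs => hK i s (by linarith)) (fun s _ x => by simp)
      x y _ _ (st.path i t x hz) (st.path i t y hz)
    simpa using h
  -- the spatial derivative
  have hdiff : ∀ j, HasFDerivAt (fun y : V3 => st.Y i j (t, y))
      ((fderiv ℝ (st.Y i j) (t, x)).comp (ContinuousLinearMap.inr ℝ ℝ V3)) x := by
    intro j
    have h1 : HasFDerivAt (st.Y i j) (fderiv ℝ (st.Y i j) (t, x)) (t, x) :=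
      ((st.Y_smooth i j).differentiable (by norm_num)).differentiableAt.hasFDerivAt
    have h2 : HasFDerivAt (fun y : V3 => ((t, y) : X)) (ContinuousLinearMap.inr ℝ ℝ V3) x :=
      hasFDerivAt_prodMk_right t x
    exact h1.comp x h2
  have hdiff2 : HasFDerivAt (fun y : V3 => vec (st.Y i) (t, y) - y)
      ((ContinuousLinearMap.pi fun j =>
        (fderiv ℝ (st.Y i j) (t, x)).comp (ContinuousLinearMap.inr ℝ ℝ V3)) -
          ContinuousLinearMap.id ℝ V3) x := by
    apply HasFDerivAt.sub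
    · exact hasFDerivAt_pi.mpr hdiff
    · exact hasFDerivAt_id x
  have hnorm := hdiff2.le_of_lip' (C := 1 / 19) (by norm_num)
    (Filter.Eventually.of_forall (fun y => by
      have h := hlip y x
      have e : vec (st.Y i) (t, y) - y - (vec (st.Y i) (t, x) - x) =
        (vec (st.Y i) (t, y) - vec (st.Y i) (t, x)) - (y - x) := by abel
      rw [e]; exact h))
  have hv := (ContinuousLinearMap.le_opNorm (((ContinuousLinearMap.pi fun j =>
        (fderiv ℝ (st.Y i j) (t, x)).comp (ContinuousLinearMap.inr ℝ ℝ V3)) -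
          ContinuousLinearMap.id ℝ V3)) v)
  have e : (((ContinuousLinearMap.pi fun j =>
        (fderiv ℝ (st.Y i j) (t, x)).comp (ContinuousLinearMap.inr ℝ ℝ V3)) -
          ContinuousLinearMap.id ℝ V3)) v = (fun j => ∑ k, dx k (st.Y i j) (t, x) * v k) - v := by
    ext j
    simp only [sub_apply, ContinuousLinearMap.pi_apply,
      ContinuousLinearMap.comp_apply, ContinuousLinearMap.id_apply, Pi.sub_apply,
      ContinuousLinearMap.inr_apply]
    congr 1
    have hv2 : ((0:ℝ), v) = ∑ k, v k • ((0:ℝ), (Pi.single k 1 : V3)) := by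
      ext1
      · rw [Prod.fst_sum]; simp
      · rw [Prod.snd_sum]
        ext l
        simp [Finset.sum_apply, Pi.single_apply]
    rw [hv2, map_sum]
    apply Finset.sum_congr rfl
    intro k _
    rw [map_smul, smul_eq_mul, mul_comm]
    rfl
  rw [e] at hv
  refine hv.trans ?_
  exact mul_le_mul_of_nonneg_right hnorm (norm_nonneg _)

end H37.MHD
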